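import Pool.Agent.N928.FG.Stm

/-!
# The step distribution on `ℤ⁶`
-/

set_option autoImplicit false

namespace Pool.Agent.N280.FG

open Pool.Agent.N928.FG

theorem bet_mem {β : ℝ} (h0 : 0 < β) (h1 : β ≤ 1 / 2) (i : Fin 6) :
    0 < bet β i ∧ bet β i ≤ 1 / 2 := by
  unfold bet
  split_ifs
  · constructor <;> norm_num
  · exact ⟨h0, h1⟩

theorem w_nonneg {b : ℝ} (h0 : 0 < b) (h1 : b ≤ 1 / 2) (k : ℤ) : 0 ≤ w b k := by
  unfold w
  split_ifs <;> linarith

theorem w_neg (b : ℝ) (k : ℤ) : w b (-k) = w b k := by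
  unfold w
  have e1 : (-k = 0) ↔ (k = 0) := neg_eq_zero
  have e2 : (-k = 1 ∨ -k = -1) ↔ (k = 1 ∨ k = -1) := by omega
  simp only [e1, e2]

theorem sum_w (b : ℝ) (f : ℤ → ℝ) :
    ∑ k ∈ Finset.Icc (-1 : ℤ) 1, w b k * f k =
      (1 - b) * f 0 + b / 2 * (f (-1) + f 1) := by
  have e : Finset.Icc (-1 : ℤ) 1 = {-1, 0, 1} := by decide
  rw [e, Finset.sum_insert (by decide), Finset.sum_insert (by decide), Finset.sum_singleton]
  have w0 : w b 0 = 1 - b := by simp [w]
  have w1 : w b 1 = b / 2 := by simp [w]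
  have w2 : w b (-1) = b / 2 := by simp [w]
  rw [w0, w1, w2]
  ring

theorem sum_prod (β : ℝ) (f : Fin 6 → ℤ → ℝ) :
    (mu β).sum (fun a t => t * ∏ i, f i (cd a i)) =
      ∏ i, ∑ k ∈ Finset.Icc (-1 : ℤ) 1, w (bet β i) k * f i k := by
  have hsub : (mu β).support ⊆ cube := Finsupp.support_onFinset_subset
  rw [Finsupp.sum_of_support_subset _ hsub _ (fun i _ => by simp)]
  have e : ∀ a, mu β a = muf β a := fun a => rfl
  simp only [e]
  unfold cube muf
  rw [Finset.sum_map, Finset.prod_univ_sum]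
  refine Finset.sum_congr rfl fun x _ => ?_
  rw [← Finset.prod_mul_distrib]
  rfl

theorem cd_inv_mul (c a : A) (i : Fin 6) : cd (c⁻¹ * a) i = -cd c i + cd a i := rfl

theorem cd_one (i : Fin 6) : cd 1 i = 0 := rfl

theorem cd_inv (a : A) (i : Fin 6) : cd a⁻¹ i = -cd a i := rfl

theorem t_MU : S_S1 → S_MU := by
  intro hS β h0 h1
  have hb := bet_mem h0 h1
  refine ⟨fun a => ?_, ?_, fun a => ?_, fun a => ?_, fun n a => ?_, fun n a => ⟨?_, ?_, ?_⟩⟩
  · change 0 ≤ ∏ i, w (bet β i) (cd a i)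
    exact Finset.prod_nonneg fun i _ => w_nonneg (hb i).1 (hb i).2 _
  · have h := sum_prod β (fun _ _ => 1)
    simp only [Finset.prod_const_one, mul_one] at h
    rw [h]
    refine Finset.prod_eq_one fun i _ => ?_
    have h2 := sum_w (bet β i) (fun _ => 1)
    simp only [mul_one] at h2
    rw [h2]
    ring
  · change ∏ i, w (bet β i) (cd a⁻¹ i) = ∏ i, w (bet β i) (cd a i)
    refine Finset.prod_congr rfl fun i _ => ?_
    rw [cd_inv, w_neg]
  · unfold m
    by_cases ha : a = 1
    · subst ha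
      rw [if_pos rfl]
      refine Finset.prod_eq_one fun i _ => ?_
      rw [cd_one]
      simp [s]
    · rw [if_neg ha]
      have : ∃ i, cd a i ≠ 0 := by
        by_contra hcon
        push Not at hcon
        apply ha
        have h2 : Multiplicative.toAdd a = 0 := by
          funext i
          exact hcon i
        exact h2
      obtain ⟨i, hi⟩ := this
      refine Finset.prod_eq_zero (Finset.mem_univ i) ?_
      simp [s, hi]
  · have h := sum_prod β (fun i k => s (bet β i) n (-k + cd a i))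
    unfold m
    simp only [cd_inv_mul]
    rw [h]
    refine Finset.prod_congr rfl fun i _ => ?_
    rw [sum_w]
    change (1 - bet β i) * s (bet β i) n (cd a i) + bet β i / 2 *
      (s (bet β i) n (cd a i - 1) + s (bet β i) n (cd a i + 1)) = _
    have e1 : -(0 : ℤ) + cd a i = cd a i := by ring
    have e2 : -(-1 : ℤ) + cd a i = cd a i + 1 := by ring
    have e3 : -(1 : ℤ) + cd a i = cd a i - 1 := by ring
    rw [e1, e2, e3]
    ring
  · exact Finset.prod_nonneg fun i _ => (hS _ (hb i).1 (hb i).2 n _).1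
  · exact Finset.prod_le_prod (fun i _ => (hS _ (hb i).1 (hb i).2 n _).1)
      fun i _ => (hS _ (hb i).1 (hb i).2 n _).2.2.1
  · exact Finset.prod_le_one (fun i _ => (hS _ (hb i).1 (hb i).2 n _).1)
      fun i _ => (hS _ (hb i).1 (hb i).2 n 0).2.2.2

end Pool.Agent.N280.FG
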